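import Pool.Agent.HL.Facts

/-!
# Basic consequences: products, gluing maps, and the loci in the two pencils
-/

open CategoryTheory MonoidalCategory CartesianMonoidalCategory

namespace Pool.Agent.HL

universe u v w


namespace Theory

variable {C : Type u} [Category.{v} C] [CartesianMonoidalCategory C]
  {A : C → CommAlgCat.{w} ℚ} {T : Theory A}

/-- A linear map sends `tau (.prod X Y)` into a submodule as soon as it sends the exterior products
of tautological classes there. -/
theorem tau_prod_induction {X Y : Sp} {V : Type*} [AddCommGroup V] [Module ℚ V]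
    (φ : A (T.obj (.prod X Y)) →ₗ[ℚ] V) (N : Submodule ℚ V)
    (h : ∀ a ∈ T.tau X, ∀ b ∈ T.tau Y, φ (T.ext a b) ∈ N) {u : A (T.obj (.prod X Y))}
    (hu : u ∈ T.tau (.prod X Y)) : φ u ∈ N := by
  unfold tau at hu
  induction hu using Submodule.span_induction with
  | mem x hx =>
    obtain ⟨a, ha, b, hb, rfl⟩ := hx
    exact h a ha b hb
  | zero => rw [map_zero]; exact zero_mem _
  | add x y _ _ hx hy => rw [map_add]; exact add_mem hx hy
  | smul r x _ hx => rw [map_smul]; exact Submodule.smul_mem _ _ hx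

/-- The fundamental class is tautological. -/
theorem one_mem_tau : ∀ {X : Sp}, X.St → (1 : A (T.obj X)) ∈ T.tau X
  | .M g S, h => by
    exact taut_mem_tau (Taut.one h)
  | .prod X Y, h => by
    have := ext_mem_tau (T := T) (one_mem_tau h.1) (one_mem_tau h.2)
    rwa [ext_one_one] at this

/-- Push-forward along a gluing map preserves tautological classes. -/
theorem push_edge {X Y : Sp} {f : T.obj X ⟶ T.obj Y} {c : A (T.obj X)} (h : T.Edge X Y f c) :
    ∀ a ∈ T.tau X, T.push f a ∈ T.tau Y := by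
  induction h with
  | @glue g₁ g₂ g I J R₁ R₂ S h e₁ e₂ e h₁ h₂ =>
    intro a ha
    refine tau_prod_induction (T := T) (T.push (T.glue h e₁ e₂ e)) (T.tau (.M g S)) ?_ ha
    intro a ha b hb
    exact taut_mem_tau (Taut.glue h e₁ e₂ e (taut_of_mem_tau h₁ ha) (taut_of_mem_tau h₂ hb))
  | @self g g' S R h e h₁ =>
    intro a ha
    exact taut_mem_tau (Taut.self h e (taut_of_mem_tau h₁ ha))
  | @left X Y Z f c hZ _ ih =>
    intro a ha
    refine tau_prod_induction (T := T) (T.push (f ▷ T.obj Z)) (T.tau (.prod Y Z)) ?_ ha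
    intro a ha b hb
    rw [push_whiskerRight]
    exact ext_mem_tau (ih a ha) hb
  | @right X Y Z f c hZ _ ih =>
    intro a ha
    refine tau_prod_induction (T := T) (T.push (T.obj Z ◁ f)) (T.tau (.prod Z Y)) ?_ ha
    intro a ha b hb
    rw [push_whiskerLeft]
    exact ext_mem_tau ha (ih b hb)

/-- The exterior products with tautological second factor. -/
def extSpan (T : Theory A) (Z : C) (X : Sp) : Submodule ℚ (A (Z ⊗ T.obj X)) :=
  Submodule.span ℚ {z | ∃ (b : A Z), ∃ a ∈ T.tau X, z = T.ext b a}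

theorem ext_mem_extSpan {Z : C} {X : Sp} (b : A Z) {a : A (T.obj X)} (ha : a ∈ T.tau X) :
    T.ext b a ∈ T.extSpan Z X := Submodule.subset_span ⟨b, a, ha, rfl⟩

theorem extSpan_induction {Z : C} {X : Sp} {V : Type*} [AddCommGroup V] [Module ℚ V]
    (φ : A (Z ⊗ T.obj X) →ₗ[ℚ] V) (N : Submodule ℚ V)
    (h : ∀ b, ∀ a ∈ T.tau X, φ (T.ext b a) ∈ N) {u : A (Z ⊗ T.obj X)}
    (hu : u ∈ T.extSpan Z X) : φ u ∈ N := by
  unfold extSpan at hu
  induction hu using Submodule.span_induction with
  | mem x hx =>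
    obtain ⟨b, a, ha, rfl⟩ := hx
    exact h b a ha
  | zero => rw [map_zero]; exact zero_mem _
  | add x y _ _ hx hy => rw [map_add]; exact add_mem hx hy
  | smul r x _ hx => rw [map_smul]; exact Submodule.smul_mem _ _ hx

theorem pull_assoc_inv {X Y Z : C} (a : A X) (b : A Y) (c : A Z) :
    T.pull (α_ X Y Z).inv (T.ext (T.ext a b) c) = T.ext a (T.ext b c) := by
  simp only [ext, map_mul, ← T.pull_comp]
  simp only [associator_inv_fst_fst, associator_inv_fst_snd, associator_inv_snd, mul_assoc]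

theorem pull_assoc_hom {X Y Z : C} (a : A X) (b : A Y) (c : A Z) :
    T.pull (α_ X Y Z).hom (T.ext a (T.ext b c)) = T.ext (T.ext a b) c := by
  rw [← pull_assoc_inv, ← T.pull_comp, Iso.hom_inv_id, T.pull_id]

/-- The Kuenneth property of products of small moduli spaces. -/
theorem kunneth' (F : T.Facts) : ∀ {X : Sp}, X.Small → ∀ (Z : C) (y : A (Z ⊗ T.obj X)),
    y ∈ T.extSpan Z X
  | .M g S, h, Z, y => F.kunneth g S h Z y
  | .prod X Y, h, Z, y => by
    have h1 : T.pull (α_ Z (T.obj X) (T.obj Y)).inv (T.pull (α_ Z (T.obj X) (T.obj Y)).hom y) = y := by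
      rw [← T.pull_comp, Iso.inv_hom_id, T.pull_id]
    rw [← h1]
    have h2 : T.pull (α_ Z (T.obj X) (T.obj Y)).hom y ∈ T.extSpan (Z ⊗ T.obj X) Y :=
      kunneth' F h.2 (Z ⊗ T.obj X) _
    refine extSpan_induction (T := T)
      (T.pull (α_ Z (T.obj X) (T.obj Y)).inv).toLinearMap (T.extSpan Z (.prod X Y)) ?_ h2
    intro b a ha
    have h3 : b ∈ T.extSpan Z X := kunneth' F h.1 Z b
    refine extSpan_induction (T := T)
      ((T.pull (α_ Z (T.obj X) (T.obj Y)).inv).toLinearMap ∘ₗ
        ((T.extL (Z ⊗ T.obj X) (T.obj Y)).flip a)) (T.extSpan Z (.prod X Y)) ?_ h3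
    intro b' a' ha'
    have h4 : ((T.pull (α_ Z (T.obj X) (T.obj Y)).inv).toLinearMap ∘ₗ
        ((T.extL (Z ⊗ T.obj X) (T.obj Y)).flip a)) (T.ext b' a')
        = T.pull (α_ Z (T.obj X) (T.obj Y)).inv (T.ext (T.ext b' a') a) := rfl
    rw [h4, pull_assoc_inv]
    exact ext_mem_extSpan b' (ext_mem_tau ha' ha)

/-- All classes on a product of small moduli spaces are tautological. -/
theorem mem_tau_of_small (F : T.Facts) {X : Sp} (h : X.Small) (y : A (T.obj X)) : y ∈ T.tau X := by
  have h1 : T.pull (snd (𝟙_ C) (T.obj X)) y ∈ T.extSpan (𝟙_ C) X := kunneth' F h _ _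
  have h2 : T.push (snd (𝟙_ C) (T.obj X)) (T.pull (snd (𝟙_ C) (T.obj X)) y) = y := by
    have h3 := T.proj_formula (snd (𝟙_ C) (T.obj X)) 1 y
    have h4 : T.push (snd (𝟙_ C) (T.obj X)) (1 : A (𝟙_ C ⊗ T.obj X)) = 1 := by
      have := T.push_iso (λ_ (T.obj X))
      rwa [leftUnitor_hom] at this
    rwa [mul_one, h4, mul_one] at h3
  rw [← h2]
  refine extSpan_induction (T := T) (T.push (snd (𝟙_ C) (T.obj X))) (T.tau X) ?_ h1
  intro b a ha
  rw [push_snd']
  exact Submodule.smul_mem _ _ ha

/-- The push-forward of the fundamental class of a family built from tautological loci is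
tautological. -/
theorem built_tau (F : T.Facts) {n : ℕ}
    (hloc : ∀ (D : C) (X : Sp) (f : D ⟶ T.obj X), T.Loci n D X f → T.push f 1 ∈ T.tau X)
    {D : C} {X : Sp} {f : D ⟶ T.obj X} (h : T.Built n D X f) : T.push f 1 ∈ T.tau X := by
  induction h with
  | locus h => exact hloc _ _ _ h
  | small hX f => exact mem_tau_of_small F hX _
  | @prod D D' X X' f f' _ _ ih ih' =>
    rw [← ext_one_one D D', push_tensor']
    exact ext_mem_tau ih ih'
  | glue _ hE ih =>
    rw [T.push_comp]
    exact push_edge hE _ ih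
  | cover r hr _ ih =>
    obtain ⟨k, _, hk⟩ := hr
    rw [T.push_comp, hk, map_smul]
    exact Submodule.smul_mem _ _ ih
  | @univ D D' g S R f h e f' k hk _ ih =>
    have hk' : T.push f' 1 = k • T.pull (T.forget g e) (T.push f 1) := hk
    rw [hk']
    exact Submodule.smul_mem _ _ (F.tau_forget e h _ ih)

/-- The relation given by a pencil. -/
theorem pencil_rel (F : T.Facts) (P : T.Pencil) {X : C} (q : P.W ⟶ X) :
    ∑ i, P.zero.m i • T.push (P.zero.inc i ≫ q) 1
      = ∑ i, P.pole.m i • T.push (P.pole.inc i ≫ q) 1 := by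
  have h : T.pl P.lam (T.pt P.e₀) = T.pl P.lam (T.pt P.e₁) := by rw [F.wdvv P.e₀ P.e₁]
  rw [P.zero.eq, P.pole.eq] at h
  have h2 := congrArg (T.push q) h
  simpa only [map_sum, map_smul, ← T.push_comp] using h2

/-- The main conclusion from a pencil: if some components of the zero fibre push forward to
positive multiples of a class `y` and all the others, and the components of the other
fibre, to elements of a subspace `N`, then `y` lies in `N`. -/
theorem pencil_main (F : T.Facts) (P : T.Pencil) {X : C} (q : P.W ⟶ X) (y : A X)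
    (N : Submodule ℚ (A X))
    (h0 : ∀ i, (∃ k : ℚ, 0 < k ∧ T.push (P.zero.inc i ≫ q) 1 = k • y) ∨
      T.push (P.zero.inc i ≫ q) 1 ∈ N)
    (h1 : ∃ i, ∃ k : ℚ, 0 < k ∧ T.push (P.zero.inc i ≫ q) 1 = k • y)
    (h2 : ∀ i, T.push (P.pole.inc i ≫ q) 1 ∈ N) : y ∈ N := by
  classical
  have key : ∀ s : Finset (Fin P.zero.n), ∃ k : ℚ, 0 ≤ k ∧
      (∑ i ∈ s, P.zero.m i • T.push (P.zero.inc i ≫ q) 1) - k • y ∈ N := by
    intro s
    induction s using Finset.induction_on with
    | empty => exact ⟨0, le_refl _, by simp⟩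
    | insert i s hi ih =>
      obtain ⟨k, hk, hk'⟩ := ih
      rw [Finset.sum_insert hi]
      rcases h0 i with ⟨k', hk1, hk2⟩ | hN
      · refine ⟨P.zero.m i * k' + k, by have := P.zero.pos i; positivity, ?_⟩
        rw [hk2, smul_smul, add_smul]
        convert hk' using 1
        abel
      · refine ⟨k, hk, ?_⟩
        have := add_mem (Submodule.smul_mem N (P.zero.m i) hN) hk'
        convert this using 1
        abel
  obtain ⟨i, k, hk, hy⟩ := h1
  obtain ⟨k', hk', hN⟩ := key (Finset.univ.erase i)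
  have hsum : P.zero.m i • T.push (P.zero.inc i ≫ q) 1 +
      ∑ j ∈ Finset.univ.erase i, P.zero.m j • T.push (P.zero.inc j ≫ q) 1
      = ∑ j, P.pole.m j • T.push (P.pole.inc j ≫ q) 1 := by
    rw [← pencil_rel F P q]
    exact Finset.add_sum_erase _ (fun j => P.zero.m j • T.push (P.zero.inc j ≫ q) 1)
      (Finset.mem_univ i)
  have hR : ∑ j, P.pole.m j • T.push (P.pole.inc j ≫ q) 1 ∈ N :=
    Submodule.sum_mem _ (fun j _ => Submodule.smul_mem _ _ (h2 j))
  have hpos : 0 < P.zero.m i * k + k' := by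
    have := P.zero.pos i
    positivity
  have hmem : (P.zero.m i * k + k') • y ∈ N := by
    have h3 : (P.zero.m i * k + k') • y
        = (∑ j, P.pole.m j • T.push (P.pole.inc j ≫ q) 1)
          - ((∑ j ∈ Finset.univ.erase i, P.zero.m j • T.push (P.zero.inc j ≫ q) 1) - k' • y) := by
      rw [← hsum, hy, add_smul, smul_smul]
      abel
    rw [h3]
    exact sub_mem hR hN
  have h4 := Submodule.smul_mem N (P.zero.m i * k + k')⁻¹ hmem
  rwa [smul_smul, inv_mul_cancel₀ hpos.ne', one_smul] at h4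

/-- A locus swept by a pencil is tautological if the smaller loci are. -/
theorem swept_tau (F : T.Facts) {n : ℕ}
    (hloc : ∀ (D : C) (X : Sp) (f : D ⟶ T.obj X), T.Loci n D X f → T.push f 1 ∈ T.tau X)
    {X : Sp} {Y : C} {main : Y ⟶ T.obj X} (h : T.Swept n X main) :
    T.push main 1 ∈ T.tau X := by
  obtain ⟨P, q, h0, h1, h2⟩ := h
  have hmain : ∀ i, (∃ r : P.zero.D i ⟶ Y, T.Covers r ∧ P.zero.inc i ≫ q = r ≫ main) →
      ∃ k : ℚ, 0 < k ∧ T.push (P.zero.inc i ≫ q) 1 = k • T.push main 1 := by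
    rintro i ⟨r, ⟨k, hk, hr⟩, hq⟩
    exact ⟨k, hk, by rw [hq, T.push_comp, hr, map_smul]⟩
  refine pencil_main F P q (T.push main 1) (T.tau X) ?_ ?_ ?_
  · intro i
    rcases h0 i with h | h
    · exact Or.inl (hmain i h)
    · exact Or.inr (built_tau F hloc h)
  · obtain ⟨i, h⟩ := h1
    exact ⟨i, hmain i h⟩
  · intro i
    exact built_tau F hloc (h2 i)

/-- The torsion loci are tautological. -/
theorem tor_tau (F : T.Facts) (n : ℕ) : ∀ (S : Type), Finite S → Nonempty S → Nat.card S = n →
    T.push (T.tor S) 1 ∈ T.tau (.M 1 (S ⊕ S)) := by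
  induction n using Nat.strong_induction_on with
  | _ n ih =>
    intro S hf hn hS
    by_cases hsm : n ≤ 5
    · apply mem_tau_of_small F
      have hpos : 0 < Nat.card S := Nat.card_pos
      refine ⟨⟨inferInstance, ?_⟩, Or.inr ⟨rfl, ?_⟩⟩
      · rw [Nat.card_sum]; omega
      · rw [Nat.card_sum]; omega
    · refine swept_tau F ?_ (F.torsion_pencil S hf (by omega))
      intro D X f hL
      cases hL with
      | tor S' hf' hn' hS' => exact ih _ (by omega) S' hf' hn' rfl
      | hur S' hf' => exact F.hurwitz S' hf'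

/-- The push-forward of the diagonal under `xi` is tautological. -/
theorem push_xi_diag (F : T.Facts) :
    T.push T.xi (T.diag (T.M 1 (Option (Fin 10)))) ∈ T.tau (.M 12 (Fin 0)) := by
  have h := swept_tau F ?_ F.bielliptic_pencil
  · rw [T.push_comp] at h
    exact h
  · intro D X f hL
    cases hL with
    | tor S' hf' hn' hS' => exact tor_tau F _ S' hf' hn' rfl
    | hur S' hf' => exact F.hurwitz S' hf'

end Theory

end Pool.Agent.HL
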