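import Pool.Agent.HL.Delta

/-!
# The Hain-Looijenga pairing is degenerate in genus twelve
-/

open CategoryTheory MonoidalCategory CartesianMonoidalCategory

namespace Pool.Agent.HL

universe u v w


namespace Theory

variable {C : Type u} [Category.{v} C] [CartesianMonoidalCategory C]
  {A : C → CommAlgCat.{w} ℚ} (T : Theory A)

/-- A class supported on the boundary is killed by the classes vanishing on the boundary. -/
theorem bdry_mul {X : Sp} {a c : A (T.obj X)} (ha : a ∈ T.bdry X)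
    (hc : c ∈ T.Van X) : a * c = 0 := by
  unfold bdry at ha
  induction ha using Submodule.span_induction with
  | mem x hx =>
    obtain ⟨Y, f, k, y, hE, rfl⟩ := hx
    rw [mul_comm, ← T.proj_formula, mem_Van.1 hc Y f k hE, zero_mul, map_zero]
  | zero => rw [zero_mul]
  | add x y _ _ hx hy => rw [add_mul, hx, hy, add_zero]
  | smul r x _ hx => rw [smul_mul_assoc, hx, smul_zero]

/-- The first gluing map in `xi` has one edge. -/
theorem edge_first : T.Edge (.prod (.M 1 (Option (Fin 10))) (.M 1 (Option (Fin 10))))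
    (.M 2 (Fin 10 ⊕ Fin 10))
    (T.glue (g := 2) rfl (Equiv.refl _) (Equiv.refl _) (Equiv.refl (Fin 10 ⊕ Fin 10)))
    (ad (T.ext (T.psi 1 (Option (Fin 10)) none) on) (T.ext on (T.psi 1 (Option (Fin 10)) none))) :=
  .glue rfl (Equiv.refl _) (Equiv.refl _) (Equiv.refl _)
    (stable_one (by simp)) (stable_one (by simp))

/-- A nonzero tautological class of codimension 22 on the moduli space of stable curves of genus
twelve which vanishes on the boundary and is orthogonal to all tautological classes. -/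
theorem exists_class (F : T.Facts) : ∃ x : A (T.M 12 (Fin 0)),
    x ∈ T.tau (.M 12 (Fin 0)) ∧ x ∈ T.Van (.M 12 (Fin 0)) ∧ x ∈ T.gr (T.M 12 (Fin 0)) 22 ∧
    x ≠ 0 ∧ ∀ a ∈ T.tau (.M 12 (Fin 0)), T.deg (T.M 12 (Fin 0)) (a * x) = 0 := by
  have hS : Nat.card (Option (Fin 10)) = 11 := by simp
  obtain ⟨d, htau, hgr, hprim, horth, hdeg⟩ := exists_delta F hS
  have hxi : ∀ y : A (T.M 1 (Option (Fin 10)) ⊗ T.M 1 (Option (Fin 10))), T.push T.xi y
      = T.push (T.selfs 9 2 12 rfl) (T.push (T.glue (g := 2) rfl (Equiv.refl _)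
        (Equiv.refl _) (Equiv.refl (Fin 10 ⊕ Fin 10))) y) := fun y => T.push_comp _ _ y
  have hpushtau : ∀ y ∈ T.tau (.prod (.M 1 (Option (Fin 10))) (.M 1 (Option (Fin 10)))),
      T.push T.xi y ∈ T.tau (.M 12 (Fin 0)) := by
    intro y hy
    rw [hxi]
    exact tau_push_selfs 9 2 12 rfl _ le_rfl (push_edge T.edge_first y hy)
  have hpulltau : ∀ a ∈ T.tau (.M 12 (Fin 0)),
      T.pull T.xi a ∈ T.tau (.prod (.M 1 (Option (Fin 10))) (.M 1 (Option (Fin 10)))) := by
    intro a ha
    have h1 := tau_pull_selfs F 9 2 12 rfl a le_rfl ha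
    have h2 := F.tau_pull T.edge_first _ h1
    rw [← T.pull_comp] at h2
    exact h2
  have hdeg' : ∀ a : A (T.M 12 (Fin 0)),
      T.deg (T.M 12 (Fin 0)) (a * T.push T.xi d)
        = T.deg (T.M 1 (Option (Fin 10)) ⊗ T.M 1 (Option (Fin 10))) (T.pull T.xi a * d) := by
    intro a
    rw [← T.proj_formula, T.deg_push]
  have horth' : ∀ a ∈ T.tau (.M 12 (Fin 0)),
      T.deg (T.M 12 (Fin 0)) (a * T.push T.xi d) = 0 := by
    intro a ha
    rw [hdeg' a]
    exact horth _ (hpulltau a ha)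
  have htaux : T.push T.xi d ∈ T.tau (.M 12 (Fin 0)) := by
    have h1 := hpushtau _ htau
    rw [map_sub] at h1
    have h2 := sub_mem (push_xi_diag F) h1
    rwa [sub_sub_cancel] at h2
  have hgrx : T.push T.xi d ∈ T.gr (T.M 12 (Fin 0)) 22 := by
    refine T.push_gr T.xi 11 22 d hgr ?_
    have h1 := dim_one F hS
    have h2 := F.dim_M 12 (Fin 0) ⟨inferInstance, by simp⟩
    have h3 : Nat.card (Fin 0) = 0 := by simp
    rw [T.dim_tensor, h1]
    omega
  have hprimx : Prim T (.M 12 (Fin 0)) (T.push T.xi d) := by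
    rw [hxi]
    exact prim_selfs F 9 2 12 rfl _ le_rfl (prim_push F T.edge_first hprim)
  refine ⟨T.push T.xi d, htaux, hprimx.1, hgrx, ?_, horth'⟩
  intro h0
  obtain ⟨b, k, hk, hb⟩ := F.bielliptic_class
  have h1 := hdeg' b
  rw [h0, mul_zero, map_zero] at h1
  have h2 : T.pull T.xi b * d = k • (T.diag (T.M 1 (Option (Fin 10))) * d) := by
    have h3 : (T.pull T.xi b - k • T.diag (T.M 1 (Option (Fin 10)))) * d = 0 :=
      T.bdry_mul (X := .prod (.M 1 (Option (Fin 10))) (.M 1 (Option (Fin 10)))) hb hprim.1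
    rw [sub_mul, sub_eq_zero, smul_mul_assoc] at h3
    exact h3
  rw [h2, map_smul, smul_eq_mul] at h1
  exact (mul_ne_zero hk hdeg) h1.symm

/-- The same, with the words of the statement. -/
theorem exists_Rc (F : T.Formal) (K : T.Known) :
    ∃ x, T.Rc 12 x ∧ T.IsGr 22 x ∧ x ≠ ze ∧ ∀ a, T.Taut 12 (Fin 0) a → T.dg (mu a x) = 0 := by
  obtain ⟨x, htau, hvan, hgr, hne, horth⟩ := T.exists_class (facts F K)
  refine ⟨x, ⟨taut_of_mem_tau ⟨inferInstance, by simp⟩ htau, vanish_iff.2 hvan⟩, hgr, hne, ?_⟩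
  intro a ha
  exact horth a (taut_mem_tau ha)

/-- The Hain-Looijenga pairing is not perfect for `g = 12`, `k = 11`. -/
theorem not_perfect (F : T.Formal) (K : T.Known) : ¬ T.Perfect 12 11 22 := by
  rintro ⟨-, h⟩
  obtain ⟨x, hRc, hgr, hne, horth⟩ := T.exists_Rc F K
  exact hne (h x hRc hgr (fun a ha _ => horth a ha))

end Theory

end Pool.Agent.HL
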