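import Pool.Agent.HL.Lemmas

/-!
# Primitive classes, and the gradedness of the tautological rings
-/

open CategoryTheory MonoidalCategory CartesianMonoidalCategory

namespace Pool.Agent.HL

universe u v w


namespace Theory

variable {C : Type u} [Category.{v} C] [CartesianMonoidalCategory C]
  {A : C → CommAlgCat.{w} ℚ} {T : Theory A}

/-- The cotangent line classes on a product of moduli spaces. -/
inductive Psi (T : Theory A) : (X : Sp) → A (T.obj X) → Prop
  | base (g : ℕ) (S : Type) (s : S) : Psi T (.M g S) (T.psi g S s)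
  | left {X Y : Sp} {c : A (T.obj X)} : Psi T X c → Psi T (.prod X Y) (T.ext c 1)
  | right {X Y : Sp} {c : A (T.obj Y)} : Psi T Y c → Psi T (.prod X Y) (T.ext 1 c)

/-- The sum of the cotangent line classes at the two glued markings is a sum of two cotangent line
classes. -/
theorem edge_psi {X Y : Sp} {f : T.obj X ⟶ T.obj Y} {c : A (T.obj X)} (h : T.Edge X Y f c) :
    ∃ c₁ c₂, Psi T X c₁ ∧ Psi T X c₂ ∧ c = c₁ + c₂ := by
  induction h with
  | glue h e₁ e₂ e h₁ h₂ => exact ⟨_, _, .left (.base _ _ _), .right (.base _ _ _), rfl⟩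
  | self h e h₁ => exact ⟨_, _, .base _ _ _, .base _ _ _, rfl⟩
  | left hZ _ ih =>
    obtain ⟨c₁, c₂, h1, h2, rfl⟩ := ih
    exact ⟨_, _, .left h1, .left h2, ext_add_left _ _ _⟩
  | right hZ _ ih =>
    obtain ⟨c₁, c₂, h1, h2, rfl⟩ := ih
    exact ⟨_, _, .right h1, .right h2, ext_add_right _ _ _⟩

/-- Primitive classes: those killed by all pull-backs to the boundary and by all cotangent line
classes. -/
def Prim (T : Theory A) (X : Sp) (y : A (T.obj X)) : Prop :=
  y ∈ T.Van X ∧ ∀ c, Psi T X c → c * y = 0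

theorem prim_node {X Y : Sp} {f : T.obj X ⟶ T.obj Y} {c : A (T.obj X)} (h : T.Edge X Y f c)
    {y : A (T.obj X)} (hy : T.Prim X y) : c * y = 0 := by
  obtain ⟨c₁, c₂, h1, h2, rfl⟩ := edge_psi h
  rw [add_mul, hy.2 _ h1, hy.2 _ h2, add_zero]

/-- Homogeneous tautological classes and their sums. -/
def Hom (T : Theory A) (X : Sp) : Submodule ℚ (A (T.obj X)) :=
  Submodule.span ℚ {a | a ∈ T.tau X ∧ ∃ k, a ∈ T.gr (T.obj X) k}

theorem mem_Hom {X : Sp} {a : A (T.obj X)} (h : a ∈ T.tau X) {k : ℕ}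
    (hk : a ∈ T.gr (T.obj X) k) : a ∈ T.Hom X := Submodule.subset_span ⟨h, k, hk⟩

theorem Hom_induction {X : Sp} {V : Type*} [AddCommGroup V] [Module ℚ V]
    (φ : A (T.obj X) →ₗ[ℚ] V) (N : Submodule ℚ V)
    (h : ∀ a ∈ T.tau X, ∀ k, a ∈ T.gr (T.obj X) k → φ a ∈ N) {u : A (T.obj X)}
    (hu : u ∈ T.Hom X) : φ u ∈ N := by
  unfold Hom at hu
  induction hu using Submodule.span_induction with
  | mem x hx =>
    obtain ⟨hx1, k, hk⟩ := hx
    exact h x hx1 k hk
  | zero => rw [map_zero]; exact zero_mem _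
  | add x y _ _ hx hy => rw [map_add]; exact add_mem hx hy
  | smul r x _ hx => rw [map_smul]; exact Submodule.smul_mem _ _ hx

theorem tau_mul {g : ℕ} {S : Type} {a b : A (T.M g S)} (ha : a ∈ T.tau (.M g S))
    (hb : b ∈ T.tau (.M g S)) : a * b ∈ T.tau (.M g S) := by
  refine tau_M_induction (T := T) ((LinearMap.mul ℚ _).flip b) (T.tau (.M g S)) ?_ ha
  intro a ha
  refine tau_M_induction (T := T) ((LinearMap.mul ℚ _) a) (T.tau (.M g S)) ?_ hb
  intro b hb
  exact taut_mem_tau (ha.mul hb)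

theorem push_hom {X Y : Sp} (f : T.obj X ⟶ T.obj Y)
    (h : ∀ a ∈ T.tau X, T.push f a ∈ T.tau Y) : ∀ a ∈ T.Hom X, T.push f a ∈ T.Hom Y := by
  intro a ha
  refine Hom_induction (T.push f) (T.Hom Y) ?_ ha
  intro a ha k hk
  rcases lt_or_ge (k + T.dim (T.obj Y)) (T.dim (T.obj X)) with hlt | hge
  · rw [T.push_gr_low f k a hk hlt]; exact zero_mem _
  · obtain ⟨l, hl⟩ := Nat.exists_eq_add_of_le hge
    exact mem_Hom (h a ha) (T.push_gr f k l a hk (by omega))

theorem ext_mem_Hom {X Y : Sp} {a : A (T.obj X)} {b : A (T.obj Y)} (ha : a ∈ T.Hom X)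
    (hb : b ∈ T.Hom Y) : T.ext a b ∈ T.Hom (.prod X Y) := by
  refine Hom_induction (T := T) ((T.extL (T.obj X) (T.obj Y)).flip b) (T.Hom (.prod X Y)) ?_ ha
  intro a ha k hk
  refine Hom_induction (T := T) ((T.extL (T.obj X) (T.obj Y)) a) (T.Hom (.prod X Y)) ?_ hb
  intro b hb l hl
  exact mem_Hom (T := T) (X := .prod X Y) (ext_mem_tau ha hb) (ext_gr hk hl)

/-- Tautological classes are sums of homogeneous tautological classes. -/
theorem taut_Hom {g : ℕ} {S : Type} {a : A (T.M g S)} (h : T.Taut g S a) :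
    a ∈ T.Hom (.M g S) := by
  induction h with
  | one h =>
    exact mem_Hom (X := .M _ _) (taut_mem_tau (.one h)) (one_gr _)
  | @smul r g S a _ ha => exact Submodule.smul_mem (T.Hom (.M g S)) r ha
  | add _ _ ha hb => exact add_mem ha hb
  | @mul g S a b _ _ ha hb =>
    refine Hom_induction (T := T) (X := .M g S) ((LinearMap.mul ℚ _).flip b) (T.Hom (.M g S)) ?_ ha
    intro a ha k hk
    refine Hom_induction (T := T) (X := .M g S) ((LinearMap.mul ℚ _) a) (T.Hom (.M g S)) ?_ hb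
    intro b hb l hl
    exact mem_Hom (X := .M g S) (tau_mul ha hb) (SetLike.mul_mem_graded hk hl)
  | @forget g S R h e a _ ih =>
    refine push_hom (T := T) (X := .M g R) (Y := .M g S) (T.forget g e) ?_ _ ih
    intro a ha
    exact tau_M_induction (T := T) (T.push (T.forget g e)) (T.tau (.M g S))
      (fun a ha => taut_mem_tau (.forget h e ha)) ha
  | @glue g₁ g₂ g I J R₁ R₂ S h e₁ e₂ e a b _ _ ih ih' =>
    refine push_hom (T := T) (X := .prod (.M g₁ R₁) (.M g₂ R₂)) (Y := .M g S)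
      (T.glue h e₁ e₂ e) ?_ _ (ext_mem_Hom ih ih')
    intro a ha
    refine tau_prod_induction (T := T) (T.push (T.glue h e₁ e₂ e)) (T.tau (.M g S)) ?_ ha
    intro a ha b hb
    refine tau_M_induction (T := T) (T.push (T.glue h e₁ e₂ e) ∘ₗ
      ((T.extL (T.M g₁ R₁) (T.M g₂ R₂)).flip b)) (T.tau (.M g S)) ?_ ha
    intro a ha
    refine tau_M_induction (T := T) (T.push (T.glue h e₁ e₂ e) ∘ₗ
      ((T.extL (T.M g₁ R₁) (T.M g₂ R₂)) a)) (T.tau (.M g S)) ?_ hb
    intro b hb
    exact taut_mem_tau (.glue h e₁ e₂ e ha hb)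
  | @self g g' S R h e a _ ih =>
    refine push_hom (T := T) (X := .M g R) (Y := .M g' S) (T.self h e) ?_ a ih
    intro a ha
    exact tau_M_induction (T := T) (T.push (T.self h e)) (T.tau (.M g' S))
      (fun a ha => taut_mem_tau (.self h e ha)) ha

theorem tau_le_Hom : ∀ (X : Sp), T.tau X ≤ T.Hom X
  | .M g S => fun _ ha =>
    tau_M_induction (T := T) LinearMap.id (T.Hom (.M g S)) (fun _ h => taut_Hom h) ha
  | .prod X Y => fun _ ha =>
    tau_prod_induction (T := T) LinearMap.id (T.Hom (.prod X Y))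
      (fun _ ha _ hb => ext_mem_Hom (tau_le_Hom X ha) (tau_le_Hom Y hb)) ha

/-- The homogeneous components of a tautological class are tautological. -/
theorem comp_mem_tau {X : Sp} (k : ℕ) {a : A (T.obj X)} (ha : a ∈ T.tau X) :
    T.comp (T.obj X) k a ∈ T.tau X := by
  refine Hom_induction (T := T) (T.comp (T.obj X) k) (T.tau X) ?_ (tau_le_Hom X ha)
  intro a ha l hl
  by_cases h : l = k
  · subst h
    rwa [comp_of_mem hl]
  · rw [comp_of_mem_ne h hl]; exact zero_mem _

/-- The push-forward of a primitive class along a gluing map is primitive. -/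
theorem prim_push (F : T.Facts) {X : Sp} {g : ℕ} {S : Type} {f : T.obj X ⟶ T.obj (.M g S)}
    {c : A (T.obj X)} (h : T.Edge X (.M g S) f c) {y : A (T.obj X)} (hy : T.Prim X y) :
    T.Prim (.M g S) (T.push f y) := by
  constructor
  · rw [mem_Van]
    intro Y f' c' h'
    have h1 := F.excess h h' y
    have h2 : ∀ z ∈ Submodule.span ℚ
      ({z | ∃ v : T.obj X ⟶ T.obj Y, z = T.push v (c * y)} ∪
       {z | ∃ (W : Sp) (q : T.obj W ⟶ T.obj X) (d : A (T.obj W)) (v : T.obj W ⟶ T.obj Y),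
          T.Edge W X q d ∧ z = T.push v (T.pull q y)}), z = 0 := by
      intro z hz
      induction hz using Submodule.span_induction with
      | mem x hx =>
        rcases hx with ⟨v, rfl⟩ | ⟨W, q, d, v, hE, rfl⟩
        · rw [prim_node h hy, map_zero]
        · rw [mem_Van.1 hy.1 W q d hE, map_zero]
      | zero => rfl
      | add x y _ _ hx hy => rw [hx, hy, add_zero]
      | smul r x _ hx => rw [hx, smul_zero]
    exact h2 _ h1
  · intro d hd
    cases hd with
    | base g S s =>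
      rw [← T.proj_formula]
      cases h with
      | @glue g₁ g₂ g I J R₁ R₂ S h e₁ e₂ e h₁ h₂ =>
        obtain ⟨t, rfl⟩ := e.surjective s
        rcases t with i | j
        · rw [F.psi_glue_inl h e₁ e₂ e i h₁ h₂, hy.2 _ (.left (.base _ _ _)), map_zero]
        · rw [F.psi_glue_inr h e₁ e₂ e j h₁ h₂, hy.2 _ (.right (.base _ _ _)), map_zero]
      | self h e h₁ => rw [F.psi_self h e s h₁, hy.2 _ (.base _ _ _), map_zero]

theorem prim_selfs (F : T.Facts) : ∀ (n g G : ℕ) (h : g + (n + 1) = G)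
    (y : A (T.M g (Fin (n + 1) ⊕ Fin (n + 1)))), 2 ≤ g →
    T.Prim (.M g (Fin (n + 1) ⊕ Fin (n + 1))) y →
    T.Prim (.M G (Fin 0)) (T.push (T.selfs n g G h) y)
  | 0, g, G, h, y, hg, hy =>
    prim_push F (.self h lastEquiv ⟨inferInstance, by omega⟩) hy
  | n + 1, g, G, h, y, hg, hy => by
    have h1 : T.Prim (.M (g + 1) (Fin (n + 1) ⊕ Fin (n + 1)))
        (T.push (T.self rfl (pairEquiv (n + 1))) y) :=
      prim_push F (.self rfl (pairEquiv (n + 1)) ⟨inferInstance, by omega⟩) hy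
    have h2 := prim_selfs F n (g + 1) G (by omega) _ (by omega) h1
    rw [← T.push_comp] at h2
    exact h2

theorem tau_push_selfs : ∀ (n g G : ℕ) (h : g + (n + 1) = G)
    (y : A (T.M g (Fin (n + 1) ⊕ Fin (n + 1)))), 2 ≤ g →
    y ∈ T.tau (.M g (Fin (n + 1) ⊕ Fin (n + 1))) →
    T.push (T.selfs n g G h) y ∈ T.tau (.M G (Fin 0))
  | 0, g, G, h, y, hg, hy =>
    push_edge (T := T) (.self h lastEquiv ⟨inferInstance, by omega⟩) _ hy
  | n + 1, g, G, h, y, hg, hy => by
    have h1 : T.push (T.self rfl (pairEquiv (n + 1))) y ∈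
        T.tau (.M (g + 1) (Fin (n + 1) ⊕ Fin (n + 1))) :=
      push_edge (T := T)
        (.self rfl (pairEquiv (n + 1)) ⟨inferInstance, by omega⟩) _ hy
    have h2 := tau_push_selfs n (g + 1) G (by omega) _ (by omega) h1
    rw [← T.push_comp] at h2
    exact h2

theorem tau_pull_selfs (F : T.Facts) : ∀ (n g G : ℕ) (h : g + (n + 1) = G)
    (y : A (T.M G (Fin 0))), 2 ≤ g → y ∈ T.tau (.M G (Fin 0)) →
    T.pull (T.selfs n g G h) y ∈ T.tau (.M g (Fin (n + 1) ⊕ Fin (n + 1)))
  | 0, g, G, h, y, hg, hy =>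
    F.tau_pull (.self h lastEquiv ⟨inferInstance, by omega⟩) _ hy
  | n + 1, g, G, h, y, hg, hy => by
    have h2 := tau_pull_selfs F n (g + 1) G (by omega) y (by omega) hy
    have h1 := F.tau_pull
      (.self rfl (pairEquiv (n + 1)) ⟨inferInstance, by omega⟩) _ h2
    rw [← T.pull_comp] at h1
    exact h1

end Theory

end Pool.Agent.HL
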